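import Pool.Agent.Helper322.EFPP.DerivFinal

/-!
Euclidean first-passage percolation on a homogeneous Poisson process of intensity one: for every
dimension `d ≥ 1` and every exponent `α > 1` the mean passage time `n ↦ E T(0, n e_1)` is
differentiable and its derivative is positive for all large `n`, converging to the time constant.
-/

namespace Pool.Agent.Results.MP_4035b7_pr.DerivPositive

open MeasureTheory Filter Topology Pool.Agent.Helper322.EFPP

/-- For all `d ≥ 1`, `α > 1`: `T_n` is integrable; `n ↦ E T_n` is differentiable at every `n > 0`;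
there is `n₀` with `d/dn E T_n > 0` for all `n ≥ n₀`, and `n ↦ E T_n` is strictly increasing on
`[n₀, ∞)`; moreover `d/dn E T_n → μ`, where `μ = inf_{n > 0} E T_n / n > 0`. -/
theorem result {d : ℕ} [NeZero d] {α : ℝ} (hα : 1 < α) {Ω : Type*} [MeasurableSpace Ω]
    (P : Measure Ω) [IsProbabilityMeasure P] (Q : Ω → Set (Sp d)) (hQ : IsPoissonProcess P Q) :
    (∀ n : ℝ, Integrable (fun ω => passageTime α (Q ω) 0 (n • e1 d)) P) ∧
    (∀ n : ℝ, 0 < n → DifferentiableAt ℝ (meanTime P Q α) n) ∧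
    (∃ n₀ : ℝ, 0 < n₀ ∧ (∀ n : ℝ, n₀ ≤ n → 0 < deriv (meanTime P Q α) n) ∧
      StrictMonoOn (meanTime P Q α) (Set.Ici n₀)) ∧
    (∃ μ : ℝ, 0 < μ ∧ IsGLB {x : ℝ | ∃ n : ℝ, 0 < n ∧ x = meanTime P Q α n / n} μ ∧
      Tendsto (deriv (meanTime P Q α)) atTop (𝓝 μ)) := by
  have hdiff : ∀ n : ℝ, 0 < n → DifferentiableAt ℝ (meanTime P Q α) n :=
    fun n hn => meanTime_differentiableAt hQ hα hn
  obtain ⟨L, hL, hlim, hle, hsl⟩ := slopes hQ hα
  -- bounds for the derivative
  have hder : ∀ ε : ℝ, 0 < ε → ∃ n₁ : ℝ, 0 < n₁ ∧ ∀ n : ℝ, n₁ ≤ n →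
      L - ε ≤ deriv (meanTime P Q α) n ∧ deriv (meanTime P Q α) n ≤ L + ε := by
    intro ε hε
    obtain ⟨n₁, hn₁, h⟩ := hsl ε hε
    refine ⟨n₁, hn₁, ?_⟩
    intro n hn
    have h1 := (hdiff n (by linarith)).hasDerivAt.hasDerivWithinAt (s := Set.Ioi n)
    rw [hasDerivWithinAt_iff_tendsto_slope' (by simp)] at h1
    constructor
    · apply ge_of_tendsto h1
      filter_upwards [self_mem_nhdsWithin] with m hm
      have hm' : 0 < m - n := by
        have : n < m := hm
        linarith
      rw [slope_def_field, le_div_iff₀ hm']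
      exact (h n m hn (by linarith)).1
    · apply le_of_tendsto h1
      filter_upwards [self_mem_nhdsWithin] with m hm
      have hm' : 0 < m - n := by
        have : n < m := hm
        linarith
      rw [slope_def_field, div_le_iff₀ hm']
      exact (h n m hn (by linarith)).2
  refine ⟨fun n => passageTime_integrable hQ (by linarith) _ _, hdiff, ?_, L, hL, ⟨?_, ?_⟩, ?_⟩
  · obtain ⟨n₁, hn₁, h⟩ := hsl (L / 2) (by linarith)
    obtain ⟨n₂, hn₂, h'⟩ := hder (L / 2) (by linarith)
    refine ⟨max n₁ n₂, lt_max_of_lt_left hn₁, ?_, ?_⟩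
    · intro n hn
      have := (h' n ((le_max_right _ _).trans hn)).1
      linarith
    · intro n hn m _ hnm
      have hn' : max n₁ n₂ ≤ n := hn
      have h1 := (h n m ((le_max_left _ _).trans hn') hnm.le).1
      have h2 : 0 < (L - L / 2) * (m - n) := mul_pos (by linarith) (by linarith)
      linarith
  · rintro x ⟨n, hn, rfl⟩
    exact hle n hn
  · intro b hb
    apply ge_of_tendsto hlim
    filter_upwards [eventually_gt_atTop 0] with t ht
    exact hb ⟨t, ht, rfl⟩
  · rw [Metric.tendsto_atTop]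
    intro ε hε
    obtain ⟨n₁, -, h⟩ := hder (ε / 2) (by linarith)
    refine ⟨n₁, fun n hn => ?_⟩
    obtain ⟨h1, h2⟩ := h n hn
    rw [Real.dist_eq, abs_lt]
    constructor <;> linarith

end Pool.Agent.Results.MP_4035b7_pr.DerivPositive
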