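import Pool.Agent.Helper322.EFPP.Slopes

/-!
Eventual strict monotonicity of the mean passage time `n ↦ E T(0, n e_1)` in Euclidean
first-passage percolation on a homogeneous Poisson process of intensity one, for every dimension
`d ≥ 1` and every exponent `α > 1`, with the exact asymptotic slope.
-/

namespace Pool.Agent.Results.MP_4035b7_pr.EventualMono

open MeasureTheory Filter Topology Pool.Agent.Helper322.EFPP

/-- For all `d ≥ 1`, `α > 1`: `T_n` is integrable; the time constant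
`μ = inf_{n > 0} E T_n / n` is positive; `n ↦ E T_n` is strictly increasing on some half-line
`[n₀, ∞)`; and its difference quotients over `[n₁, ∞)` are within any `ε` of `μ` once `n₁` is
large (so every derivative of `n ↦ E T_n` at large `n` is close to `μ > 0`). -/
theorem result {d : ℕ} [NeZero d] {α : ℝ} (hα : 1 < α) {Ω : Type*} [MeasurableSpace Ω]
    (P : Measure Ω) [IsProbabilityMeasure P] (Q : Ω → Set (Sp d)) (hQ : IsPoissonProcess P Q) :
    (∀ n : ℝ, Integrable (fun ω => passageTime α (Q ω) 0 (n • e1 d)) P) ∧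
    ∃ μ : ℝ, 0 < μ ∧ IsGLB {x : ℝ | ∃ n : ℝ, 0 < n ∧ x = meanTime P Q α n / n} μ ∧
      (∃ n₀ : ℝ, 0 < n₀ ∧ StrictMonoOn (meanTime P Q α) (Set.Ici n₀)) ∧
      (∀ ε : ℝ, 0 < ε → ∃ n₁ : ℝ, 0 < n₁ ∧ ∀ n m : ℝ, n₁ ≤ n → n < m →
        |(meanTime P Q α m - meanTime P Q α n) / (m - n) - μ| ≤ ε) := by
  refine ⟨fun n => passageTime_integrable hQ (by linarith) _ _, ?_⟩
  obtain ⟨L, hL, hlim, hle, hsl⟩ := slopes hQ hα
  refine ⟨L, hL, ⟨?_, ?_⟩, ?_, ?_⟩
  · rintro x ⟨n, hn, rfl⟩
    exact hle n hn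
  · intro b hb
    apply ge_of_tendsto hlim
    filter_upwards [eventually_gt_atTop 0] with t ht
    exact hb ⟨t, ht, rfl⟩
  · obtain ⟨n₁, hn₁, h⟩ := hsl (L / 2) (by linarith)
    refine ⟨n₁, hn₁, ?_⟩
    intro n hn m _ hnm
    have h1 := (h n m hn hnm.le).1
    have h2 : 0 < (L - L / 2) * (m - n) := mul_pos (by linarith) (by linarith)
    linarith
  · intro ε hε
    obtain ⟨n₁, hn₁, h⟩ := hsl ε hε
    refine ⟨n₁, hn₁, ?_⟩
    intro n m hn hnm
    have h0 : 0 < m - n := by linarith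
    obtain ⟨h1, h2⟩ := h n m hn hnm.le
    rw [abs_le]
    constructor
    · have : (L - ε) ≤ (meanTime P Q α m - meanTime P Q α n) / (m - n) := by
        rw [le_div_iff₀ h0]; exact h1
      linarith
    · have : (meanTime P Q α m - meanTime P Q α n) / (m - n) ≤ L + ε := by
        rw [div_le_iff₀ h0]; exact h2
      linarith

end Pool.Agent.Results.MP_4035b7_pr.EventualMono
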